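import Pool.Agent.H82.RP.TB
import Pool.Agent.H82.RP.TC
import Pool.Agent.H45.MP.HC

/-!
# MP_76b9e7_nt, row S4: the fourth moment
-/

set_option autoImplicit false

open Finset Real ArithmeticFunction
open scoped Nat

namespace Pool.Agent.H66.RP

open Pool.Agent.H82.RP
open Pool.Agent.H30.BV (NX)
open Pool.Agent.H31.MP (RS Rgh Pz Me Om UU T_MO)

open Classical in
/-- pointwise bound for the weights of one set -/
theorem LG_le {m : ℕ} {Z δ Y C₀ : ℝ} {K n a : ℕ} (hZ : 1 < Z) (hδ : 0 < δ) (hC : 0 ≤ C₀)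
    (H : Finset (Fin m)) (hH : H.card ≤ K) (l : (Fin m → ℕ) → ℝ) (hl : WG H (Z ^ δ) Y C₀ l)
    (hn : ∀ i ∈ H, n + pw a i ≠ 0 ∧ ((n + pw a i : ℕ) : ℝ) ≤ Z ^ 2) :
    |LG (Z ^ δ) Y l (pw a) n| ≤ C₀ * ((2 ^ ⌊2 / δ⌋₊ : ℕ) : ℝ) ^ K := by
  have hD : 1 ≤ 2 ^ ⌊2 / δ⌋₊ := Nat.one_le_two_pow
  have h1 : |LG (Z ^ δ) Y l (pw a) n| ≤
      ∑ d ∈ BG (Fin m) (Z ^ δ) Y, if l d ≠ 0 ∧ ∀ i, d i ∣ n + pw a i then C₀ else 0 := by
    unfold LG
    refine (Finset.abs_sum_le_sum_abs _ _).trans (Finset.sum_le_sum fun d _ => ?_)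
    by_cases h0 : l d = 0
    · rw [h0, ite_self, abs_zero]
      split_ifs
      · exact hC
      · exact le_rfl
    · by_cases hd : ∀ i, d i ∣ n + pw a i
      · rw [if_pos hd, if_pos ⟨h0, hd⟩]
        exact hl.bd d
      · rw [if_neg hd, if_neg fun h => hd h.2, abs_zero]
  refine h1.trans ?_
  rw [← Finset.sum_filter, Finset.sum_const, nsmul_eq_mul]
  have h2 : (BG (Fin m) (Z ^ δ) Y).filter (fun d => l d ≠ 0 ∧ ∀ i, d i ∣ n + pw a i) ⊆
      Fintype.piFinset (fun i => if i ∈ H then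
        (RS (Z ^ δ) Y).filter (fun x => x ∣ n + pw a i) else {1}) := by
    intro d hd
    rw [mem_filter] at hd
    rw [Fintype.mem_piFinset]
    intro i
    have h3 := hd.1
    unfold BG at h3
    rw [Fintype.mem_piFinset] at h3
    by_cases hi : i ∈ H
    · rw [if_pos hi, mem_filter]
      exact ⟨h3 i, hd.2.2 i⟩
    · rw [if_neg hi, mem_singleton]
      exact (hl.supp d hd.2.1).2.2 i hi
  have h3 : ((BG (Fin m) (Z ^ δ) Y).filter
      (fun d => l d ≠ 0 ∧ ∀ i, d i ∣ n + pw a i)).card ≤ (2 ^ ⌊2 / δ⌋₊) ^ K := by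
    refine (Finset.card_le_card h2).trans ?_
    rw [Fintype.card_piFinset]
    calc ∏ i, (if i ∈ H then (RS (Z ^ δ) Y).filter (fun x => x ∣ n + pw a i)
          else {1} : Finset ℕ).card ≤ ∏ i : Fin m, (if i ∈ H then 2 ^ ⌊2 / δ⌋₊ else 1) := by
          refine Finset.prod_le_prod (fun _ _ => Nat.zero_le _) fun i _ => ?_
          by_cases hi : i ∈ H
          · rw [if_pos hi, if_pos hi]
            exact Pool.Agent.H45.MP.few_div hZ hδ (hn i hi).1 (hn i hi).2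
          · rw [if_neg hi, if_neg hi, card_singleton]
      _ = (2 ^ ⌊2 / δ⌋₊) ^ H.card := by
          rw [Finset.prod_ite_mem, Finset.univ_inter, Finset.prod_const]
      _ ≤ _ := Nat.pow_le_pow_right hD hH
  have h4 : (((BG (Fin m) (Z ^ δ) Y).filter
      (fun d => l d ≠ 0 ∧ ∀ i, d i ∣ n + pw a i)).card : ℝ) ≤
      ((2 ^ ⌊2 / δ⌋₊ : ℕ) : ℝ) ^ K := by exact_mod_cast h3
  nlinarith

/-- the number of subsets with at most `K` elements -/
theorem card_small {α : Type} [DecidableEq α] (T : Finset α) (K : ℕ) :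
    (T.powerset.filter fun H => H.card ≤ K).card ≤ (T.card + 1) ^ K := by
  have h1 : (T.powerset.filter fun H => H.card ≤ K) ⊆
      (range (K + 1)).biUnion fun s => T.powersetCard s := by
    intro H hH
    rw [mem_filter, mem_powerset] at hH
    rw [mem_biUnion]
    exact ⟨H.card, mem_range.2 (by omega), mem_powersetCard.2 ⟨hH.1, rfl⟩⟩
  refine (card_le_card h1).trans (card_biUnion_le.trans ?_)
  rw [add_pow]
  refine Finset.sum_le_sum fun s hs => ?_
  rw [mem_range] at hs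
  rw [card_powersetCard, one_pow, mul_one]
  calc T.card.choose s ≤ T.card ^ s := Nat.choose_le_pow _ _
    _ = T.card ^ s * 1 := (mul_one _).symm
    _ ≤ T.card ^ s * K.choose s := Nat.mul_le_mul_left _ (Nat.choose_pos (by omega))

/-- the power of a sum -/
theorem pow_sum_le (U M : ℕ) (b : ℕ → ℝ) (hb : ∀ u, 0 ≤ b u) :
    (1 + ∑ u ∈ range U, b u) ^ M ≤ ((U : ℝ) + 1) ^ M * (1 + ∑ u ∈ range U, b u ^ M) := by
  obtain ⟨x, hx1, hx2, hx3⟩ : ∃ x : ℝ, 1 ≤ x ∧ (∀ u ∈ range U, b u ≤ x) ∧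
      x ^ M ≤ 1 + ∑ u ∈ range U, b u ^ M := by
    have hS : 0 ≤ ∑ u ∈ range U, b u ^ M :=
      Finset.sum_nonneg fun u _ => pow_nonneg (hb u) M
    by_cases h : ∀ u ∈ range U, b u ≤ 1
    · exact ⟨1, le_rfl, h, by rw [one_pow]; linarith⟩
    · push Not at h
      obtain ⟨u0, hu0, hb0⟩ := h
      obtain ⟨u1, hu1, hmax⟩ := Finset.exists_max_image (range U) b ⟨u0, hu0⟩
      refine ⟨b u1, (hb0.le.trans (hmax u0 hu0)), hmax, ?_⟩
      have := Finset.single_le_sum (f := fun u => b u ^ M) (fun u _ => pow_nonneg (hb u) M) hu1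
      linarith
  calc (1 + ∑ u ∈ range U, b u) ^ M ≤ (((U : ℝ) + 1) * x) ^ M := by
        refine pow_le_pow_left₀ (add_nonneg zero_le_one (Finset.sum_nonneg fun u _ => hb u)) ?_ M
        have h1 : ∑ u ∈ range U, b u ≤ U * x := by
          calc ∑ u ∈ range U, b u ≤ ∑ _u ∈ range U, x := Finset.sum_le_sum hx2
            _ = U * x := by rw [Finset.sum_const, card_range, nsmul_eq_mul]
        linarith
    _ = ((U : ℝ) + 1) ^ M * x ^ M := mul_pow _ _ _
    _ ≤ _ := mul_le_mul_of_nonneg_left hx3 (by positivity)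

open Classical in
/-- the positions without prime factors up to `z` -/
noncomputable def TN (m y₀ : ℕ) (z : ℝ) (a n : ℕ) : Finset (Fin m) :=
  (Ad y₀ a m).filter fun i => ∀ p ∈ Pz y₀ z, ¬ p ∣ n + pw a i

open Classical in
theorem tw_le {m y₀ K n a : ℕ} {Z δ Y C₁ : ℝ} (g : ℕ → ℝ) (hC : 0 ≤ C₁)
    (h : ∀ H ∈ HS (Ad y₀ a m) K, |LG (Z ^ δ) Y (LH (Z ^ δ) Y g H) (pw a) n| ≤ C₁) :
    |tw m y₀ K (Z ^ δ) Y g a n| ≤ C₁ * (((TN m y₀ (Z ^ δ) a n).card : ℝ) + 1) ^ K := by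
  unfold tw
  calc _ ≤ ∑ H ∈ HS (Ad y₀ a m) K, if RH y₀ (Z ^ δ) (ps a H) n then C₁ else 0 := by
        refine (Finset.abs_sum_le_sum_abs _ _).trans (Finset.sum_le_sum fun H hH => ?_)
        split_ifs
        · exact h H hH
        · rw [abs_zero]
    _ = (((HS (Ad y₀ a m) K).filter fun H => RH y₀ (Z ^ δ) (ps a H) n).card : ℝ) * C₁ := by
        rw [← Finset.sum_filter, Finset.sum_const, nsmul_eq_mul]
    _ ≤ (((TN m y₀ (Z ^ δ) a n).card : ℝ) + 1) ^ K * C₁ := by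
        refine mul_le_mul_of_nonneg_right ?_ hC
        have h1 : ((HS (Ad y₀ a m) K).filter fun H => RH y₀ (Z ^ δ) (ps a H) n) ⊆
            (TN m y₀ (Z ^ δ) a n).powerset.filter fun H => H.card ≤ K := by
          intro H hH
          unfold HS at hH
          rw [mem_filter, mem_filter, mem_powerset] at hH
          rw [mem_filter, mem_powerset]
          refine ⟨fun i hi => ?_, hH.1.2⟩
          unfold TN
          rw [mem_filter]
          refine ⟨hH.1.1 hi, fun p hp => ?_⟩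
          exact hH.2 p hp _ (mem_image_of_mem _ hi)
        have h2 := (card_le_card h1).trans (card_small _ K)
        exact_mod_cast h2
    _ = _ := mul_comm _ _

open Classical in
/-- the positions are covered by windows -/
theorem TN_le {m y₀ n a U : ℕ} {Z δ : ℝ} (hZ : 2 ≤ Z) (hδ : 0 < δ) (hn : n ∈ Om Z y₀)
    (hm : m ≤ U * (⌊Real.log (2 * Z)⌋₊ + 1)) :
    (TN m y₀ (Z ^ δ) a n).card ≤
      ∑ u ∈ range U, UU (2 * Z) (δ / 2) (n + a + u * (⌊Real.log (2 * Z)⌋₊ + 1)) := by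
  obtain ⟨L, hL⟩ : ∃ L, L = ⌊Real.log (2 * Z)⌋₊ + 1 := ⟨_, rfl⟩
  have hL0 : 0 < L := by omega
  have hpow : (2 * Z) ^ (δ / 2) ≤ Z ^ δ := by
    have h1 : Z ^ δ = (Z ^ 2) ^ (δ / 2) := by
      rw [← Real.rpow_natCast, ← Real.rpow_mul (by linarith)]
      congr 1
      push_cast
      ring
    rw [h1]
    exact Real.rpow_le_rpow (by linarith) (by nlinarith) (by positivity)
  have h1 : ((TN m y₀ (Z ^ δ) a n).image fun i => n + pw a i) ⊆
      (range U).biUnion fun u => (Icc (n + a + u * L) (n + a + u * L +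
        ⌊Real.log (2 * Z)⌋₊)).filter fun k => ∀ p : ℕ, p.Prime → (p : ℝ) ≤
          (2 * Z) ^ (δ / 2) → ¬ p ∣ k := by
    intro k hk
    rw [mem_image] at hk
    obtain ⟨i, hi, rfl⟩ := hk
    unfold TN Ad at hi
    rw [mem_filter, mem_filter] at hi
    obtain ⟨⟨_, hco⟩, hp⟩ := hi
    have hiL : i.1 / L < U := by
      rw [Nat.div_lt_iff_lt_mul hL0]
      have := i.2
      rw [← hL] at hm
      omega
    rw [mem_biUnion]
    refine ⟨i.1 / L, mem_range.2 hiL, ?_⟩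
    rw [mem_filter, mem_Icc]
    have e1 := Nat.div_mul_le_self i.1 L
    have e2 := Nat.lt_div_mul_add hL0 (a := i.1)
    refine ⟨⟨?_, ?_⟩, ?_⟩
    · unfold pw
      omega
    · unfold pw
      omega
    · intro p hpp hpz hpk
      by_cases hpy : p ≤ y₀
      · have h5 : p ∣ primorial y₀ := by
          unfold primorial
          refine Finset.dvd_prod_of_mem _ ?_
          rw [mem_filter, mem_range]
          exact ⟨by omega, hpp⟩
        unfold Om at hn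
        rw [mem_filter] at hn
        have h8 : n ≡ 1 [MOD p] := Nat.ModEq.of_dvd h5 hn.2
        have h9 : n + pw a i ≡ 1 + pw a i [MOD p] := h8.add_right _
        have h10 : p ∣ 1 + pw a i := (Nat.ModEq.dvd_iff h9 dvd_rfl).1 hpk
        have h11 : p ∣ Nat.gcd (1 + pw a i) (primorial y₀) := Nat.dvd_gcd h10 h5
        have h12 : Nat.gcd (1 + pw a i) (primorial y₀) = 1 := hco
        rw [h12] at h11
        exact hpp.one_lt.ne' (Nat.dvd_one.1 h11)
      · refine hp p ?_ hpk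
        unfold Pz
        rw [mem_filter, mem_Icc]
        exact ⟨⟨hpp.one_lt.le, Nat.le_floor (hpz.trans hpow)⟩, hpp, by omega⟩
  have h2 : (TN m y₀ (Z ^ δ) a n).card =
      ((TN m y₀ (Z ^ δ) a n).image fun i => n + pw a i).card := by
    rw [card_image_of_injective]
    intro i j hij
    have hij : n + pw a i = n + pw a j := hij
    unfold pw at hij
    exact Fin.ext (by omega)
  rw [h2, ← hL]
  exact (card_le_card h1).trans card_biUnion_le

/-- large numbers -/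
theorem large (H₀ U Z₁ : ℝ) (hU : 0 ≤ U) : ∃ Z₀ : ℝ, ∀ Z : ℝ, Z₀ ≤ Z → 2 ≤ Z ∧ Z₁ ≤ Z ∧
    3 * Z + 1 + H₀ * Real.log Z ≤ Z ^ 2 ∧
    3 * Z + 1 + H₀ * Real.log Z + U * (Real.log (2 * Z) + 1) ≤ 6 * Z := by
  obtain ⟨M, hM⟩ : ∃ M : ℝ, M = |H₀| + U + 1 := ⟨_, rfl⟩
  have hM1 : 1 ≤ M := by
    rw [hM]
    have := abs_nonneg H₀
    linarith
  have h0 : ∀ᶠ Z : ℝ in Filter.atTop, Real.log Z ≤ 1 / (2 * M) * Z := by
    have h1 := Real.isLittleO_log_id_atTop
    have h2 := h1.bound (c := 1 / (2 * M)) (by positivity)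
    filter_upwards [h2, Filter.eventually_ge_atTop (1 : ℝ)] with Z hZ hZ1
    rw [Real.norm_of_nonneg (Real.log_nonneg hZ1)] at hZ
    have h3 : ‖id Z‖ = Z := by
      show ‖Z‖ = Z
      rw [Real.norm_of_nonneg (by linarith)]
    rw [h3] at hZ
    exact hZ
  obtain ⟨Z₂, hZ₂⟩ := Filter.eventually_atTop.1 h0
  refine ⟨max (max Z₂ 6) (max Z₁ (6 * M)), fun Z hZ => ?_⟩
  have a1 : Z₂ ≤ Z := ((le_max_left _ _).trans (le_max_left _ _)).trans hZ
  have a2 : 6 ≤ Z := ((le_max_right _ _).trans (le_max_left _ _)).trans hZ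
  have a3 : Z₁ ≤ Z := ((le_max_left _ _).trans (le_max_right _ _)).trans hZ
  have a4 : 6 * M ≤ Z := ((le_max_right _ _).trans (le_max_right _ _)).trans hZ
  have h1 := hZ₂ Z a1
  have hl0 : 0 ≤ Real.log Z := Real.log_nonneg (by linarith)
  have h2 : M * Real.log Z ≤ Z / 2 := by
    calc M * Real.log Z ≤ M * (1 / (2 * M) * Z) := mul_le_mul_of_nonneg_left h1 (by linarith)
      _ = Z / 2 := by field_simp
  have h3 : H₀ * Real.log Z + U * Real.log Z ≤ M * Real.log Z := by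
    rw [← add_mul]
    refine mul_le_mul_of_nonneg_right ?_ hl0
    rw [hM]
    have := le_abs_self H₀
    linarith
  have h4 : Real.log (2 * Z) ≤ Real.log Z + 1 := by
    rw [Real.log_mul (by norm_num) (by linarith)]
    have := Real.log_two_lt_d9
    linarith
  have h5 : 0 ≤ U * Real.log Z := mul_nonneg hU hl0
  refine ⟨by linarith, a3, ?_, ?_⟩
  · nlinarith
  · have h6 : U * (Real.log (2 * Z) + 1) ≤ U * Real.log Z + 2 * U := by
      calc U * (Real.log (2 * Z) + 1) ≤ U * (Real.log Z + 1 + 1) :=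
            mul_le_mul_of_nonneg_left (by linarith) hU
        _ = _ := by ring
    have h7 : U ≤ M := by
      rw [hM]
      have := abs_nonneg H₀
      linarith
    linarith

open Classical in
theorem pf_S4 (h4 : T_LBH) (hMO : Pool.Agent.H31.MP.T_MO) : T_S4 := by
  intro K y₀ δ lam hδ hδ1 hlam
  obtain ⟨C₀, hC₀, hL⟩ := h4 K δ hδ
  obtain ⟨CM, ZM, hCM, hM⟩ := hMO (4 * K) (δ / 2) (by positivity) (by linarith)
  obtain ⟨U, hU⟩ : ∃ U : ℕ, U = ⌈lam⌉₊ := ⟨_, rfl⟩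
  obtain ⟨C₁, hC₁⟩ : ∃ C₁ : ℝ, C₁ = C₀ * ((2 ^ ⌊2 / δ⌋₊ : ℕ) : ℝ) ^ K := ⟨_, rfl⟩
  have hC₁0 : 0 < C₁ := by rw [hC₁]; positivity
  refine ⟨C₁ ^ 4 * (((U : ℝ) + 1) ^ (4 * K) * (1 + 2 * U * CM)), by positivity, ?_⟩
  intro H₀
  obtain ⟨Z₀, hZ₀⟩ := large H₀ U ZM (Nat.cast_nonneg U)
  refine ⟨Z₀, fun Z hZ m a g hg hm ham => ?_⟩
  obtain ⟨b1, b2, b3, b4⟩ := hZ₀ Z hZ
  have hlog : 0 ≤ Real.log Z := Real.log_nonneg (by linarith)
  have hNX : (NX Z : ℝ) ≤ 3 * Z + 1 := by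
    unfold NX
    exact (Nat.ceil_lt_add_one (by linarith)).le
  have hNX' : 3 * Z ≤ (NX Z : ℝ) := by
    unfold NX
    exact Nat.le_ceil _
  have hNX2 : 6 * Z ≤ (NX (2 * Z) : ℝ) := by
    unfold NX
    refine le_trans (le_of_eq ?_) (Nat.le_ceil _)
    ring
  have hOm : ∀ n ∈ Om Z y₀, 1 ≤ n ∧ (n : ℝ) ≤ 3 * Z + 1 := by
    intro n hn
    unfold Om at hn
    rw [mem_filter, mem_Icc] at hn
    refine ⟨hn.1.1, le_trans ?_ hNX⟩
    exact_mod_cast hn.1.2
  obtain ⟨L, hLL⟩ : ∃ L, L = ⌊Real.log (2 * Z)⌋₊ + 1 := ⟨_, rfl⟩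
  have hlog2 : Real.log Z ≤ Real.log (2 * Z) := Real.log_le_log (by linarith) (by linarith)
  have hL1 : Real.log (2 * Z) ≤ L := by
    rw [hLL]
    push_cast
    exact (Nat.lt_floor_add_one _).le
  have hL2 : (L : ℝ) ≤ Real.log (2 * Z) + 1 := by
    rw [hLL]
    push_cast
    have := Nat.floor_le (hlog.trans hlog2)
    linarith
  have hmU : m ≤ U * L := by
    have h1 : (m : ℝ) ≤ U * L := by
      calc (m : ℝ) ≤ lam * Real.log Z := hm
        _ ≤ U * L := by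
            refine mul_le_mul ?_ (hlog2.trans hL1) hlog (Nat.cast_nonneg _)
            rw [hU]
            exact Nat.le_ceil _
    exact_mod_cast h1
  have hY1 : 1 ≤ Z ^ (1 / 8 : ℝ) := Real.one_le_rpow (by linarith) (by norm_num)
  have hY2 : Z ^ (1 / 8 : ℝ) ≤ Z := by
    calc Z ^ (1 / 8 : ℝ) ≤ Z ^ (1 : ℝ) :=
          Real.rpow_le_rpow_of_exponent_le (by linarith) (by norm_num)
      _ = Z := Real.rpow_one Z
  have hpt : ∀ n ∈ Om Z y₀, tw m y₀ K (Z ^ δ) (Z ^ (1 / 8 : ℝ)) g a n ^ 4 ≤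
      C₁ ^ 4 * (((U : ℝ) + 1) ^ (4 * K) * (1 + ∑ u ∈ range U,
        (UU (2 * Z) (δ / 2) (n + a + u * L) : ℝ) ^ (4 * K))) := by
    intro n hn
    obtain ⟨n1, n2⟩ := hOm n hn
    have h1 : |tw m y₀ K (Z ^ δ) (Z ^ (1 / 8 : ℝ)) g a n| ≤
        C₁ * (((TN m y₀ (Z ^ δ) a n).card : ℝ) + 1) ^ K := by
      refine tw_le g hC₁0.le fun H hH => ?_
      unfold HS at hH
      rw [mem_filter] at hH
      rw [hC₁]
      refine LG_le (by linarith) hδ hC₀.le H hH.2 _
        (hL Z _ g m H b1 hY1 hY2 hg hH.2).1 fun i _ => ⟨by omega, ?_⟩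
      have h2 : ((n + pw a i : ℕ) : ℝ) ≤ n + (a + m : ℕ) := by
        have h3 : n + pw a i ≤ n + (a + m) := by
          have := i.2
          unfold pw
          omega
        exact_mod_cast h3
      linarith
    have h2 : ((TN m y₀ (Z ^ δ) a n).card : ℝ) ≤
        ∑ u ∈ range U, (UU (2 * Z) (δ / 2) (n + a + u * L) : ℝ) := by
      have h3 := TN_le (a := a) b1 hδ hn (hLL ▸ hmU)
      rw [← hLL] at h3
      exact_mod_cast h3
    have h5 : tw m y₀ K (Z ^ δ) (Z ^ (1 / 8 : ℝ)) g a n ^ 4 =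
        |tw m y₀ K (Z ^ δ) (Z ^ (1 / 8 : ℝ)) g a n| ^ 4 := by
      rw [show (4 : ℕ) = 2 * 2 from rfl, pow_mul, pow_mul, sq_abs]
    rw [h5]
    calc _ ≤ (C₁ * (((TN m y₀ (Z ^ δ) a n).card : ℝ) + 1) ^ K) ^ 4 :=
          pow_le_pow_left₀ (abs_nonneg _) h1 4
      _ = C₁ ^ 4 * (((TN m y₀ (Z ^ δ) a n).card : ℝ) + 1) ^ (4 * K) := by
          rw [mul_pow, ← pow_mul, mul_comm K 4]
      _ ≤ C₁ ^ 4 * (1 + ∑ u ∈ range U,
          (UU (2 * Z) (δ / 2) (n + a + u * L) : ℝ)) ^ (4 * K) := by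
          refine mul_le_mul_of_nonneg_left (pow_le_pow_left₀ (by positivity) ?_ _)
            (by positivity)
          linarith
      _ ≤ _ := mul_le_mul_of_nonneg_left (pow_sum_le U (4 * K) _
          fun u => Nat.cast_nonneg _) (by positivity)
  have hsh : ∀ u ∈ range U, ∑ n ∈ Om Z y₀,
      (UU (2 * Z) (δ / 2) (n + a + u * L) : ℝ) ^ (4 * K) ≤ CM * (2 * Z) := by
    intro u hu
    refine le_trans ?_ (hM (2 * Z) (by linarith))
    have hinj : Set.InjOn (fun n : ℕ => n + a + u * L) (Om Z y₀) := by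
      intro x _ y _ hxy
      have hxy : x + a + u * L = y + a + u * L := hxy
      omega
    rw [← Finset.sum_image (f := fun k => (UU (2 * Z) (δ / 2) k : ℝ) ^ (4 * K)) hinj]
    refine Finset.sum_le_sum_of_subset_of_nonneg ?_ fun _ _ _ => by positivity
    intro k hk
    rw [mem_image] at hk
    obtain ⟨n, hn, rfl⟩ := hk
    obtain ⟨n1, n2⟩ := hOm n hn
    rw [mem_Icc]
    refine ⟨by omega, ?_⟩
    have h1 : ((n + a + u * L : ℕ) : ℝ) ≤ NX (2 * Z) := by
      have h2 : (u : ℝ) * L ≤ U * (Real.log (2 * Z) + 1) := by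
        refine mul_le_mul ?_ hL2 (Nat.cast_nonneg _) (Nat.cast_nonneg _)
        rw [mem_range] at hu
        exact_mod_cast hu.le
      have h3 : (a : ℝ) ≤ ((a + m : ℕ) : ℝ) := by
        push_cast
        have : (0 : ℝ) ≤ m := Nat.cast_nonneg m
        linarith
      push_cast
      linarith
    exact_mod_cast h1
  have hcard : ((Om Z y₀).card : ℝ) ≤ NX Z := by
    unfold Om
    have h1 := (Finset.card_filter_le (Icc 1 (NX Z)) fun n => n ≡ 1 [MOD primorial y₀])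
    rw [Nat.card_Icc, Nat.add_sub_cancel] at h1
    exact_mod_cast h1
  calc _ ≤ ∑ n ∈ Om Z y₀, C₁ ^ 4 * (((U : ℝ) + 1) ^ (4 * K) * (1 + ∑ u ∈ range U,
        (UU (2 * Z) (δ / 2) (n + a + u * L) : ℝ) ^ (4 * K))) := Finset.sum_le_sum hpt
    _ = C₁ ^ 4 * (((U : ℝ) + 1) ^ (4 * K) * (((Om Z y₀).card : ℝ) + ∑ u ∈ range U,
        ∑ n ∈ Om Z y₀, (UU (2 * Z) (δ / 2) (n + a + u * L) : ℝ) ^ (4 * K))) := by
        rw [← Finset.mul_sum, ← Finset.mul_sum, Finset.sum_add_distrib, Finset.sum_const,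
          nsmul_eq_mul, mul_one, Finset.sum_comm]
    _ ≤ C₁ ^ 4 * (((U : ℝ) + 1) ^ (4 * K) * (NX Z + ∑ _u ∈ range U, CM * (2 * Z))) := by
        refine mul_le_mul_of_nonneg_left (mul_le_mul_of_nonneg_left ?_ (by positivity))
          (by positivity)
        exact add_le_add hcard (Finset.sum_le_sum hsh)
    _ ≤ C₁ ^ 4 * (((U : ℝ) + 1) ^ (4 * K) * ((1 + 2 * U * CM) * NX Z)) := by
        refine mul_le_mul_of_nonneg_left (mul_le_mul_of_nonneg_left ?_ (by positivity))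
          (by positivity)
        rw [Finset.sum_const, card_range, nsmul_eq_mul]
        have hUC : 0 ≤ (U : ℝ) * CM := by positivity
        nlinarith
    _ = _ := by ring

end Pool.Agent.H66.RP
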